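import Pool.Agent.PLG.Stmts

/-!
# Squad PLG, row ALG (helper90): the algebra of a block acts on its lines
-/

set_option autoImplicit false

namespace Pool.Agent.PLG.H90

open Module

theorem sh_mem_sl (t : ℝ) (y : ℂ) : sh t y ∈ sl t := by
  rw [mem_sl]
  rfl

theorem real_mul_mem_sl (q t : ℝ) {y : ℂ} (hy : y ∈ sl t) : ((q : ℝ) : ℂ) * y ∈ sl t := by
  rw [mem_sl] at hy ⊢
  rw [Complex.re_ofReal_mul, Complex.im_ofReal_mul, hy]
  ring

theorem real_mul_sh (q t : ℝ) (y : ℂ) : ((q : ℝ) : ℂ) * sh t y = sh t (((q : ℝ) : ℂ) * y) := by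
  apply Complex.ext
  · rw [Complex.re_ofReal_mul]
    unfold sh
    simp only
    rw [Complex.re_ofReal_mul]
  · rw [Complex.im_ofReal_mul]
    unfold sh
    simp only
    rw [Complex.re_ofReal_mul]
    ring

theorem rat_mul_mem {M : Submodule ℚ ℂ} (r : ℚ) {y : ℂ} (hy : y ∈ M) :
    ((((r : ℚ) : ℝ) : ℝ) : ℂ) * y ∈ M := by
  have h : ((((r : ℚ) : ℝ) : ℝ) : ℂ) * y = r • y := by
    rw [Rat.smul_def]
    push_cast
    rfl
  rw [h]
  exact M.smul_mem r hy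

/-- the real numbers which act on the line of slope `t` of `M` -/
noncomputable def act (M : Submodule ℚ ℂ) (t : ℝ) : Subalgebra ℚ ℝ where
  carrier := {q | ∀ y ∈ M ⊓ sl t, ((q : ℝ) : ℂ) * y ∈ M}
  mul_mem' := by
    intro a b ha hb y hy
    have h1 : ((b : ℝ) : ℂ) * y ∈ M := hb y hy
    have h2 : ((b : ℝ) : ℂ) * y ∈ sl t := real_mul_mem_sl b t hy.2
    have h3 := ha _ ⟨h1, h2⟩
    have h4 : (((a * b : ℝ)) : ℂ) * y = ((a : ℝ) : ℂ) * (((b : ℝ) : ℂ) * y) := by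
      push_cast
      ring
    rw [h4]
    exact h3
  add_mem' := by
    intro a b ha hb y hy
    have h4 : (((a + b : ℝ)) : ℂ) * y = ((a : ℝ) : ℂ) * y + ((b : ℝ) : ℂ) * y := by
      push_cast
      ring
    rw [h4]
    exact M.add_mem (ha y hy) (hb y hy)
  algebraMap_mem' := by
    intro r y hy
    have h : algebraMap ℚ ℝ r = (r : ℝ) := rfl
    rw [h]
    exact rat_mul_mem r hy.1

theorem mem_act {M : Submodule ℚ ℂ} {t q : ℝ} :
    q ∈ act M t ↔ ∀ y ∈ M ⊓ sl t, ((q : ℝ) : ℂ) * y ∈ M := Iff.rfl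

theorem alg (h1 : GrfStmt) : AlgStmt := by
  intro M W t₁ t₂ hT ht₁ ht₂ hne
  -- (1), (2)
  have hsub : Rat4 W t₁ t₂ ⊆ (act M t₁ : Set ℝ) := by
    rintro q ⟨k, hk, l, hl, hk1, hk2, hl1, hl2, rfl⟩
    show lam t₁ t₂ k l ∈ act M t₁
    rw [mem_act]
    intro y hy
    obtain ⟨ha, -, -⟩ := h1 M W t₁ t₂ k hT ht₁ ht₂ hk hne hk1 hk2
    obtain ⟨-, hb, -⟩ := h1 M W t₁ t₂ l hT ht₁ ht₂ hl hne hl1 hl2
    have hz := (ha y hy).1
    have hzs : ((((k - t₁) / (k - t₂) : ℝ)) : ℂ) * sh t₂ y ∈ sl t₂ :=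
      real_mul_mem_sl _ _ (sh_mem_sl t₂ y)
    obtain ⟨y', hy', he⟩ := hb _ ⟨hz, hzs⟩
    have hre := congrArg Complex.re he
    rw [Complex.re_ofReal_mul, Complex.re_ofReal_mul] at hre
    have hre' : (k - t₁) / (k - t₂) * y.re = (l - t₁) / (l - t₂) * y'.re := hre
    have hrl : (l - t₁) / (l - t₂) ≠ 0 :=
      div_ne_zero (sub_ne_zero.2 hl1) (sub_ne_zero.2 hl2)
    have hq : (((lam t₁ t₂ k l : ℝ)) : ℂ) * y = y' := by
      refine eq_of_re (t := t₁) (real_mul_mem_sl _ _ hy.2) hy'.2 ?_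
      rw [Complex.re_ofReal_mul]
      unfold lam
      rw [div_mul_eq_mul_div, hre', mul_div_assoc, mul_comm, div_mul_cancel₀ _ hrl]
    rw [hq]
    exact hy'.1
  have hadj : Algebra.adjoin ℚ (Rat4 W t₁ t₂) ≤ act M t₁ := Algebra.adjoin_le hsub
  intro q hq t ht x hx
  have hqa : ∀ y ∈ M ⊓ sl t₁, ((q : ℝ) : ℂ) * y ∈ M ⊓ sl t₁ := fun y hy =>
    ⟨hadj hq y hy, real_mul_mem_sl _ _ hy.2⟩
  by_cases htt : t = t₁
  · subst htt
    exact hadj hq x hx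
  by_cases htt2 : t = t₂
  · subst htt2
    by_cases hex : ∃ k ∈ W, k ≠ t₁ ∧ k ≠ t
    · obtain ⟨k, hk, hk1, hk2⟩ := hex
      obtain ⟨ha, hb, -⟩ := h1 M W t₁ t k hT ht₁ ht₂ hk hne hk1 hk2
      obtain ⟨y, hy, he⟩ := hb x hx
      have h3 : ((q : ℝ) : ℂ) * x = ((((k - t₁) / (k - t) : ℝ)) : ℂ) *
          sh t (((q : ℝ) : ℂ) * y) := by
        rw [he, ← real_mul_sh]
        ring
      rw [h3]
      exact (ha _ (hqa y hy)).1
    · have hem : Rat4 W t₁ t = ∅ := by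
        rw [Set.eq_empty_iff_forall_notMem]
        rintro r ⟨k, hk, l, hl, hk1, hk2, -⟩
        exact hex ⟨k, hk, hk1, hk2⟩
      rw [hem, Algebra.adjoin_empty] at hq
      obtain ⟨r, rfl⟩ := Algebra.mem_bot.1 hq
      have h : algebraMap ℚ ℝ r = (r : ℝ) := rfl
      rw [h]
      exact rat_mul_mem r hx.1
  · obtain ⟨ha, -, hc⟩ := h1 M W t₁ t₂ t hT ht₁ ht₂ ht hne htt htt2
    obtain ⟨y, hy, he⟩ := hc x hx
    have h3 : ((q : ℝ) : ℂ) * x = ((q : ℝ) : ℂ) * y - ((((t - t₁) / (t - t₂) : ℝ)) : ℂ) *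
        sh t₂ (((q : ℝ) : ℂ) * y) := by
      rw [he, ← real_mul_sh]
      ring
    rw [h3]
    exact M.sub_mem (hqa y hy).1 (ha _ (hqa y hy)).1

end Pool.Agent.PLG.H90
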